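import Pool.Agent.Q173.ZP.Core

/-!
# Dense subvarieties of small defect
-/

set_option autoImplicit false

open Set TopologicalSpace

namespace Pool.Agent.Q173.ZP

universe u v

namespace Theory

variable {C : Type u} {T : Theory.{u, v} C}

section

variable {S : C}

/-- Components of closed sets are closed. -/
lemma Comp.var {A W : Set (T.pts S)} (hA : IsClosed A) (h : T.Comp A W) : T.Var W := by
  refine ⟨?_, h.prop.1⟩
  have h1 : closure W ⊆ A := closure_minimal h.prop.2 hA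
  have h2 : closure W ⊆ W := h.2 ⟨h.prop.1.closure, h1⟩ subset_closure
  exact closure_subset_iff_isClosed.1 h2

/-- A closed subset of a noetherian space has finitely many components, and every irreducible subset
is contained in one of them. -/
lemma exists_comp (hS : NoetherianSpace (T.pts S)) {A : Set (T.pts S)} (hA : IsClosed A) :
    {W | T.Comp A W}.Finite ∧ ∀ W, IsIrreducible W → W ⊆ A → ∃ W', W ⊆ W' ∧ T.Comp A W' := by
  obtain ⟨Fs, hF, hFc, hFi, hFA⟩ :=
    NoetherianSpace.exists_finite_set_isClosed_irreducible hA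
  have hsub : ∀ B ∈ Fs, B ⊆ A := fun B hB => hFA ▸ subset_sUnion_of_mem hB
  have key : ∀ W : Set (T.pts S), IsIrreducible W → W ⊆ A → ∃ B ∈ Fs, W ⊆ B := by
    intro W hW hWA
    obtain ⟨B, hB, hWB⟩ := (isIrreducible_iff_sUnion_isClosed.1 hW) hF.toFinset
      (fun z hz => hFc z (by simpa using hz)) (by rw [hF.coe_toFinset, ← hFA]; exact hWA)
    exact ⟨B, by simpa using hB, hWB⟩
  constructor
  · refine hF.subset fun W hW => ?_
    have hW : T.Comp A W := hW
    obtain ⟨B, hB, hWB⟩ := key W hW.prop.1 hW.prop.2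
    have h2 : B ⊆ W := hW.2 ⟨hFi B hB, hsub B hB⟩ hWB
    rwa [Subset.antisymm hWB h2]
  · intro W hW hWA
    obtain ⟨B, hB, hWB⟩ := key W hW hWA
    obtain ⟨M, hBM, hM⟩ := hF.exists_le_maximal hB
    refine ⟨M, hWB.trans hBM, ⟨hFi M hM.prop, hsub M hM.prop⟩, ?_⟩
    intro Q hQ hMQ
    obtain ⟨B', hB', hQB'⟩ := key Q hQ.1 hQ.2
    exact hQB'.trans (hM.2 hB' (hMQ.trans hQB'))

end

/-- If the assertion fails for `V` in `Y`, then some subvariety of `V` with hull `Y` has a Zariski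
dense set of subvarieties of small defect. -/
lemma IsKnown.extract (hT : T.IsKnown) {S : C} {Y V : Set (T.pts S)} (hY : Y ∈ T.special S)
    (hV : T.Var V) (hVY : V ⊂ Y) (hQ : ¬ T.Q1 Y V) :
    ∃ V₀ : Set (T.pts S), T.Var V₀ ∧ T.hull V₀ = Y ∧ T.dim Y ≤ T.dim V + T.defect V₀ ∧
      T.Gap V₀ (T.defect V₀ + 1 - (T.dim Y - T.dim V)) (T.dim V) := by
  classical
  have hYv := hT.var hY
  have hdim := hT.dim_lt hV hYv hVY
  unfold Q1 at hQ
  push Not at hQ
  obtain ⟨Z, W, hZW, hF⟩ := hQ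
  have hWv : ∀ n, T.Var (W n) := fun n =>
    (hZW n).2.2.1.var (hV.1.inter (hT.var (hZW n).1).1)
  have hWV : ∀ n, W n ⊆ V := fun n => (hZW n).2.2.1.prop.2.trans inter_subset_left
  have hWZ : ∀ n, W n ⊆ Z n := fun n => (hZW n).2.2.1.prop.2.trans inter_subset_right
  -- the index sets which are not covered
  let P : Set ℕ → Prop := fun I => ∀ F : Set (Set (T.pts S)), F.Finite →
    (∀ Z ∈ F, Z ∈ T.special S ∧ Z ⊂ Y) → ¬ (⋃ n ∈ I, W n) ⊆ ⋃₀ F
  have hP0 : P univ := by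
    intro F hF1 hF2 h
    exact hF F hF1 hF2 (by simpa using h)
  have hPu : ∀ I J : Set ℕ, P (I ∪ J) → P I ∨ P J := by
    intro I J h
    by_contra hcon
    push Not at hcon
    obtain ⟨h1, h2⟩ := hcon
    simp only [P] at h1 h2
    push Not at h1 h2
    obtain ⟨F1, hF1, hF1', h1⟩ := h1
    obtain ⟨F2, hF2, hF2', h2⟩ := h2
    refine h (F1 ∪ F2) (hF1.union hF2) ?_ ?_
    · rintro Z (hZ | hZ)
      · exact hF1' Z hZ
      · exact hF2' Z hZ
    · rw [biUnion_union, sUnion_union]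
      exact union_subset_union h1 h2
  have := hT.noeth S
  have : WellFoundedLT (Closeds (T.pts S)) := ((noetherianSpace_TFAE (T.pts S)).out 0 1).1 ‹_›
  let K : Set ℕ → Closeds (T.pts S) := fun I => ⟨closure (⋃ n ∈ I, W n), isClosed_closure⟩
  obtain ⟨K₀, hK₀, hmin⟩ := exists_minimal_of_wellFoundedLT
    (fun K' : Closeds (T.pts S) => ∃ I, P I ∧ K I = K') ⟨K univ, univ, hP0, rfl⟩
  obtain ⟨I, hI, rfl⟩ := hK₀
  have hKV : (K I : Set (T.pts S)) ⊆ V :=
    closure_minimal (iUnion₂_subset fun n _ => hWV n) hV.1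
  have hWK : ∀ n ∈ I, W n ⊆ (K I : Set (T.pts S)) := fun n hn =>
    (subset_biUnion_of_mem (u := W) hn).trans subset_closure
  have hne : (K I : Set (T.pts S)).Nonempty := by
    by_contra hcon
    rw [not_nonempty_iff_eq_empty] at hcon
    refine hI ∅ finite_empty (by simp) ?_
    have : (⋃ n ∈ I, W n) ⊆ (K I : Set (T.pts S)) := subset_closure
    rw [hcon] at this
    exact this.trans (empty_subset _)
  have hirr : IsIrreducible (K I : Set (T.pts S)) := by
    refine ⟨hne, ?_⟩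
    rw [isPreirreducible_iff_isClosed_union_isClosed]
    intro A B hA hB hAB
    have hsplit : I = {n | n ∈ I ∧ W n ⊆ A} ∪ {n | n ∈ I ∧ W n ⊆ B} := by
      ext n
      constructor
      · intro hn
        rcases (isPreirreducible_iff_isClosed_union_isClosed.1 (hWv n).2.2) A B hA hB
          ((hWK n hn).trans hAB) with h | h
        · exact Or.inl ⟨hn, h⟩
        · exact Or.inr ⟨hn, h⟩
      · rintro (hn | hn)
        · exact hn.1
        · exact hn.1
    have hstep : ∀ A : Set (T.pts S), IsClosed A → P {n | n ∈ I ∧ W n ⊆ A} →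
        (K I : Set (T.pts S)) ⊆ A := by
      intro A hA hPA
      have h1 : K {n | n ∈ I ∧ W n ⊆ A} ≤ K I := by
        refine closure_mono ?_
        exact biUnion_subset_biUnion_left fun n hn => hn.1
      have h2 : K I ≤ K {n | n ∈ I ∧ W n ⊆ A} := hmin ⟨_, hPA, rfl⟩ h1
      refine Subset.trans h2 ?_
      exact closure_minimal (iUnion₂_subset fun n hn => hn.2) hA
    rw [hsplit] at hI
    rcases hPu _ _ hI with h | h
    · exact Or.inl (hstep A hA h)
    · exact Or.inr (hstep B hB h)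
  have hv : T.Var (K I : Set (T.pts S)) := ⟨(K I).isClosed, hirr⟩
  have hhull : T.hull (K I : Set (T.pts S)) = Y := by
    have h1 : T.hull (K I : Set (T.pts S)) ⊆ Y := hT.hull_le hv hY (hKV.trans hVY.1)
    by_contra hcon
    refine hI {T.hull (K I : Set (T.pts S))} (finite_singleton _) ?_ ?_
    · rintro Z' rfl
      exact ⟨hT.hull_mem hv, h1.ssubset_of_ne hcon⟩
    · rw [sUnion_singleton]
      exact subset_closure.trans (hT.subset_hull hv)
  have hdimK : T.dim (K I : Set (T.pts S)) ≤ T.dim V := hT.dim_le hv hV hKV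
  have hdef : T.defect (K I : Set (T.pts S)) = T.dim Y - T.dim (K I : Set (T.pts S)) := by
    unfold defect
    rw [hhull]
  refine ⟨K I, hv, hhull, by omega, ?_⟩
  refine closure_mono ?_
  refine iUnion₂_subset fun n hn => ?_
  intro z hz
  simp only [mem_iUnion, mem_ofPred_eq, exists_prop]
  refine ⟨W n, ⟨hWv n, hWK n hn, ?_, by omega⟩, hz⟩
  have h1 : T.dim (T.hull (W n)) ≤ T.dim (Z n) :=
    hT.dim_le (hT.var (hT.hull_mem (hWv n))) (hT.var (hZW n).1)
      (hT.hull_le (hWv n) (hZW n).1 (hWZ n))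
  have h2 := (hZW n).2.2.2
  have h3 := hT.dim_le_hull (hWv n)
  have h4 : T.defect (W n) = T.dim (T.hull (W n)) - T.dim (W n) := rfl
  omega

/-- Powers. -/
lemma IsKnown.power (hT : T.IsKnown) {S : C} {V₀ : Set (T.pts S)} (hV : T.Var V₀) {u k : ℕ}
    (h : T.Gap V₀ u k) (m : ℕ) : ∃ (S' : C) (V : Set (T.pts S')), T.Var V ∧
      T.Gap V ((m + 1) * u) ((m + 1) * k) ∧ T.defect V ≤ (m + 1) * T.defect V₀ := by
  induction m with
  | zero => exact ⟨S, V₀, hV, by simpa using h, by simp⟩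
  | succ m ih =>
    obtain ⟨S', V, hV', hG, hd⟩ := ih
    refine ⟨T.prod S' S, T.box V V₀, hT.box_var hV' hV, ?_, ?_⟩
    · have := hT.gap_box hV' hV hG h
      rwa [← Nat.succ_mul, ← Nat.succ_mul] at this
    · refine (hT.defect_box_le hV' hV).trans ?_
      have : (m + 1 + 1) * T.defect V₀ = (m + 1) * T.defect V₀ + T.defect V₀ := by ring
      omega

/-- Stretching. -/
lemma IsKnown.stretch (hT : T.IsKnown) {S₀ : C} {Y : Set (T.pts S₀)} (hY : Y ∈ T.special S₀)
    (hY1 : 1 ≤ T.dim Y) {S : C} {V : Set (T.pts S)} (hV : T.Var V) {u k : ℕ}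
    (h : T.Gap V u k) (m : ℕ) : ∃ (S' : C) (V' : Set (T.pts S')), T.Var V' ∧
      T.Gap V' u k ∧ T.defect V' = T.defect V ∧ m ≤ T.dim V' := by
  induction m with
  | zero => exact ⟨S, V, hV, h, rfl, Nat.zero_le _⟩
  | succ m ih =>
    obtain ⟨S', V', hV', hG, hd, hm⟩ := ih
    refine ⟨T.prod S' S₀, T.box V' Y, hT.box_var hV' (hT.var hY), hT.gap_box_special hV' hY hG,
      ?_, ?_⟩
    · rw [hT.defect_box_special hV' hY, hd]
    · rw [hT.dim_box hV' (hT.var hY)]
      omega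

lemma Gap.dense {S : C} {V : Set (T.pts S)} {u k : ℕ} (h : T.Gap V u k) {t l : ℝ}
    (ht : (T.defect V : ℝ) - u ≤ t) (hl : (k : ℝ) ≤ l) : T.Dense V t l := by
  refine h.trans (closure_mono ?_)
  refine iUnion₂_subset fun W hW => ?_
  intro z hz
  simp only [mem_iUnion, mem_ofPred_eq, exists_prop]
  have h1 : T.defect W + u ≤ T.defect V := hW.2.2.1
  have h2 : ((T.defect W + u : ℕ) : ℝ) ≤ T.defect V := by exact_mod_cast h1
  have h3 : T.dim V ≤ T.dim W + k := hW.2.2.2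
  have h4 : (T.dim V : ℝ) ≤ (T.dim W + k : ℕ) := by exact_mod_cast h3
  push_cast at h2 h4
  exact ⟨W, ⟨hW.1, hW.2.1, by linarith, by linarith⟩, hz⟩

lemma Dense.mono {S : C} {V : Set (T.pts S)} {s t k l : ℝ} (h : T.Dense V s k) (hst : s ≤ t)
    (hkl : k ≤ l) : T.Dense V t l := by
  refine h.trans (closure_mono ?_)
  refine iUnion₂_subset fun W hW => ?_
  intro z hz
  simp only [mem_iUnion, mem_ofPred_eq, exists_prop]
  exact ⟨W, ⟨hW.1, hW.2.1, hW.2.2.1.trans hst, hW.2.2.2.trans (by linarith)⟩, hz⟩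

/-- One failure of the assertion gives subvarieties of large defect and much larger dimension with
dense subvarieties of much smaller defect. -/
lemma IsKnown.amplify (hT : T.IsKnown) {S : C} {Y V : Set (T.pts S)} (hY : Y ∈ T.special S)
    (hV : T.Var V) (hVY : V ⊂ Y) (hQ : ¬ T.Q1 Y V) {c r : ℕ} (hc : T.dim Y ≤ T.dim V + c)
    (hr : T.dim V ≤ r) (D : ℕ) (f : ℕ → ℕ) :
    ∃ (S' : C) (V' : Set (T.pts S')), T.Var V' ∧ D ≤ T.defect V' ∧
      f (T.defect V') ≤ T.dim V' ∧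
        T.Dense V' ((1 - 1 / (c : ℝ)) * T.defect V') (r * T.defect V') := by
  have hdim := hT.dim_lt hV (hT.var hY) hVY
  obtain ⟨V₀, hV₀, hhull, hd1, hG⟩ := hT.extract hY hV hVY hQ
  obtain ⟨c', hc'⟩ : ∃ c' : ℕ, T.dim Y - T.dim V = c' := ⟨_, rfl⟩
  obtain ⟨c₀, hc₀⟩ : ∃ c₀ : ℕ, T.defect V₀ = c₀ := ⟨_, rfl⟩
  obtain ⟨u, hu⟩ : ∃ u : ℕ, c₀ + 1 - c' = u := ⟨_, rfl⟩
  rw [hc₀, hc', hu] at hG
  rw [hc₀] at hd1
  have h1 : 1 ≤ c' := by omega
  have h2 : c' ≤ c := by omega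
  have h3 : c' ≤ c₀ := by omega
  have h4 : 1 ≤ u := by omega
  have h5 : c₀ ≤ u * c := by
    have h6 : c₀ ≤ u * c' := by
      obtain ⟨a, rfl⟩ := Nat.exists_eq_add_of_le h3
      obtain ⟨b, rfl⟩ := Nat.exists_eq_add_of_le h1
      have : u = a + 1 := by omega
      subst this
      nlinarith [Nat.zero_le (a * b)]
    exact h6.trans (Nat.mul_le_mul_left _ h2)
  obtain ⟨S₁, V₁, hV₁, hG₁, hd₁⟩ := hT.power hV₀ hG D
  have h7 := gap_le hV₁ hG₁
  obtain ⟨S₂, V₂, hV₂, hG₂, hd₂, hdim₂⟩ :=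
    hT.stretch hY (by omega) hV₁ hG₁ (f (T.defect V₁))
  refine ⟨S₂, V₂, hV₂, ?_, by rw [hd₂]; exact hdim₂, hG₂.dense ?_ ?_⟩
  · rw [hd₂]
    nlinarith
  · rw [hd₂]
    have h8 : (T.defect V₁ : ℝ) ≤ c * ((D + 1) * u : ℕ) := by
      have : T.defect V₁ ≤ c * ((D + 1) * u) := by
        refine hd₁.trans ?_
        rw [hc₀]
        calc (D + 1) * c₀ ≤ (D + 1) * (u * c) := Nat.mul_le_mul_left _ h5
          _ = c * ((D + 1) * u) := by ring
      exact_mod_cast this
    have h9 : (0 : ℝ) < c := by exact_mod_cast (by omega : 0 < c)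
    have h10 : (T.defect V₁ : ℝ) / c ≤ ((D + 1) * u : ℕ) := by
      rw [div_le_iff₀ h9]
      linarith
    have h11 : (1 - 1 / (c : ℝ)) * T.defect V₁ = T.defect V₁ - T.defect V₁ / c := by ring
    rw [h11]
    linarith
  · rw [hd₂]
    have h12 : (D + 1) * T.dim V ≤ r * T.defect V₁ := by
      calc (D + 1) * T.dim V ≤ (D + 1) * r := Nat.mul_le_mul_left _ hr
        _ = r * ((D + 1) * 1) := by ring
        _ ≤ r * ((D + 1) * u) := Nat.mul_le_mul_left _ (Nat.mul_le_mul_left _ h4)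
        _ ≤ r * T.defect V₁ := Nat.mul_le_mul_left _ h7
    exact_mod_cast h12

/-- The conjecture excludes dense sets of subvarieties of smaller defect. -/
lemma IsKnown.not_dense (hT : T.IsKnown) (hZP : T.ZilberPink) {S : C} {V : Set (T.pts S)}
    (hV : T.Var V) (hd : 1 ≤ T.defect V) : ¬ T.Dense V (T.defect V - 1) (T.dim V) := by
  intro hD
  have hY := hT.hull_mem hV
  have hYv := hT.var hY
  have hVY : V ⊂ T.hull V := by
    refine (hT.subset_hull hV).ssubset_of_ne ?_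
    intro h
    unfold defect at hd
    rw [← h] at hd
    omega
  have hlt := hT.dim_lt hV hYv hVY
  -- the atypical intersections
  let A : Set (Set (T.pts S) × Set (T.pts S)) := {p | p.1 ∈ T.special S ∧ p.1 ⊆ T.hull V ∧
    T.Comp (V ∩ p.1) p.2 ∧ T.dim p.1 + T.dim V < T.dim p.2 + T.dim (T.hull V)}
  have hAc : A.Countable := by
    have h1 : A ⊆ ⋃ Z ∈ T.special S, (fun W => (Z, W)) '' {W | T.Comp (V ∩ Z) W} := by
      rintro ⟨Z, W⟩ h
      simp only [mem_iUnion]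
      exact ⟨Z, h.1, W, h.2.2.1, rfl⟩
    refine Countable.mono h1 ?_
    refine (hT.countable S).biUnion fun Z hZ => ?_
    exact (((exists_comp (hT.noeth S) (hV.1.inter (hT.var hZ).1)).1).countable).image _
  have key : ∀ W : Set (T.pts S), T.Var W → W ⊆ V → (T.defect W : ℝ) ≤ T.defect V - 1 →
      ∃ p ∈ A, W ⊆ p.2 := by
    intro W hW hWV hWd
    have hWd' : T.defect W + 1 ≤ T.defect V := by
      have : ((T.defect W + 1 : ℕ) : ℝ) ≤ T.defect V := by push_cast; linarith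
      exact_mod_cast this
    have hZ := hT.hull_mem hW
    have hZY : T.hull W ⊆ T.hull V := hT.hull_le hW hY (hWV.trans hVY.1)
    obtain ⟨W', hWW', hW'⟩ := (exists_comp (hT.noeth S) (hV.1.inter (hT.var hZ).1)).2 W hW.2
      (subset_inter hWV (hT.subset_hull hW))
    refine ⟨(T.hull W, W'), ⟨hZ, hZY, hW', ?_⟩, hWW'⟩
    have hW'v : T.Var W' := hW'.var (hV.1.inter (hT.var hZ).1)
    have h1 := hT.dim_le hW hW'v hWW'
    have h2 := hT.dim_le_hull hW
    have h3 := hT.dim_le_hull hV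
    unfold defect at hWd'
    change T.dim (T.hull W) + T.dim V < T.dim W' + T.dim (T.hull V)
    omega
  have hAne : A.Nonempty := by
    obtain ⟨x, hx⟩ := hV.2.1
    have h1 := hD hx
    obtain ⟨y, hy⟩ := closure_nonempty_iff.1 ⟨x, h1⟩
    simp only [mem_iUnion, mem_ofPred_eq, exists_prop] at hy
    obtain ⟨W, ⟨hW1, hW2, hW3, -⟩, -⟩ := hy
    obtain ⟨p, hp, -⟩ := key W hW1 hW2 hW3
    exact ⟨p, hp⟩
  obtain ⟨g, hg⟩ := hAc.exists_eq_range hAne
  have hgA : ∀ n, g n ∈ A := fun n => hg ▸ mem_range_self n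
  obtain ⟨F, hF, hF1, hF2⟩ := hZP S (T.hull V) V hY hV hVY (fun n => (g n).1) (fun n => (g n).2)
    (fun n => ⟨(hgA n).1, (hgA n).2.1, (hgA n).2.2.1, (hgA n).2.2.2⟩)
  have hcl : IsClosed (⋃₀ F) := by
    rw [sUnion_eq_biUnion]
    exact hF.isClosed_biUnion fun Z hZ => (hT.var (hF1 Z hZ).1).1
  have hVF : V ⊆ ⋃₀ F := by
    refine hD.trans (closure_minimal ?_ hcl)
    refine iUnion₂_subset fun W hW => ?_
    obtain ⟨p, hp, hWp⟩ := key W hW.1 hW.2.1 hW.2.2.1
    rw [hg] at hp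
    obtain ⟨n, rfl⟩ := hp
    exact (hWp.trans (subset_iUnion (fun n => (g n).2) n)).trans hF2
  obtain ⟨Z, hZ, hVZ⟩ := (isIrreducible_iff_sUnion_isClosed.1 hV.2) hF.toFinset
    (fun z hz => (hT.var (hF1 z (by simpa using hz)).1).1) (by rw [hF.coe_toFinset]; exact hVF)
  have hZ' : Z ∈ F := by simpa using hZ
  exact (hF1 Z hZ').2.2 (hT.hull_le hV (hF1 Z hZ').1 hVZ)

end Theory

end Pool.Agent.Q173.ZP
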